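import Pool.Agent.W293.MQ.LIFT

set_option autoImplicit false

open WithZero IsDedekindDomain

namespace W293.MQ

universe u w

open W548.MQ

/-- squares and minus squares -/
def Hs (L : Type u) [Field L] : Subgroup Lˣ where
  carrier := {x | ∃ c : Lˣ, x = c ^ 2 ∨ x = -(c ^ 2)}
  one_mem' := ⟨1, Or.inl (by simp)⟩
  mul_mem' := by
    rintro x y ⟨c, hc⟩ ⟨d, hd⟩
    refine ⟨c * d, ?_⟩
    rcases hc with rfl | rfl <;> rcases hd with rfl | rfl
    · left; rw [mul_pow]
    · right; rw [mul_pow, mul_neg]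
    · right; rw [mul_pow, neg_mul]
    · left; rw [mul_pow, neg_mul, mul_neg, neg_neg]
  inv_mem' := by
    rintro x ⟨c, hc⟩
    refine ⟨c⁻¹, ?_⟩
    rcases hc with rfl | rfl
    · left; rw [inv_pow]
    · right
      apply inv_eq_of_mul_eq_one_right
      rw [neg_mul_neg, inv_pow, mul_inv_cancel]

/-- the class modulo squares and signs -/
def gm {L : Type u} [Field L] (a : Lˣ) : Additive (Lˣ ⧸ Hs L) :=
  Additive.ofMul (QuotientGroup.mk a)

theorem gm_mul {L : Type u} [Field L] (a b : Lˣ) : gm (a * b) = gm a + gm b := rfl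

theorem gm_eq {L : Type u} [Field L] (a b : Lˣ) (h : a⁻¹ * b ∈ Hs L) : gm a = gm b :=
  congrArg Additive.ofMul (QuotientGroup.eq.mpr h)

theorem gm_sq {L : Type u} [Field L] (a b : Lˣ) : gm (a * b ^ 2) = gm a := by
  symm
  apply gm_eq
  exact ⟨b, Or.inl (by rw [← mul_assoc, inv_mul_cancel, one_mul])⟩

theorem gm_two {L : Type u} [Field L] (x : Additive (Lˣ ⧸ Hs L)) : x + x = 0 := by
  obtain ⟨a, rfl⟩ : ∃ a : Lˣ, gm a = x := by
    obtain ⟨a, ha⟩ := QuotientGroup.mk_surjective (Additive.toMul x)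
    exact ⟨a, by rw [gm, ha]; rfl⟩
  rw [← gm_mul, ← pow_two]
  have h1 : gm (1 : Lˣ) = 0 := rfl
  rw [← h1, ← one_mul (a ^ 2), gm_sq]

theorem gm_neg {L : Type u} [Field L] (a : Lˣ) : gm (-a) = gm a := by
  symm
  apply gm_eq
  refine ⟨1, Or.inr ?_⟩
  rw [mul_neg, inv_mul_cancel, one_pow]

theorem gm_hyp {L : Type u} [Field L] (a : Lˣ) : gm a + gm (-a) = 0 := by
  rw [gm_neg, gm_two]

theorem gm_add {L : Type u} [Field L] (a b c : Lˣ) :
    gm a + gm b = gm c + gm (a * b * c) := by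
  rw [← gm_mul, ← gm_mul]
  have h : c * (a * b * c) = (a * b) * c ^ 2 := by
    rw [pow_two, mul_comm c (a * b * c), mul_assoc]
  rw [h, gm_sq]

theorem gen {R : Type*} [CommRing R] {U : Type*} [CommGroup U] {M : Type*} [AddCommGroup M]
    (mk : MonoidAlgebra ℤ U →+* R) (hmk : Function.Surjective mk)
    (htwo : ∀ x : M, x + x = 0)
    (rk : R →+* ZMod 2) (hrk : ∀ a, rk (mk (MonoidAlgebra.single a 1)) = 1) (g : U → M)
    (hg : ∀ a b, g (a * b) = g a + g b) (D0 : R → M) (hDa : ∀ x y, D0 (x + y) = D0 x + D0 y)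
    (hD0 : ∀ a, D0 (mk (MonoidAlgebra.single a 1)) = g a) :
    ∀ x y, rk x = 0 → rk y = 0 → D0 (x * y) = 0 := by
  let D : R →+ M := AddMonoidHom.mk' D0 hDa
  let f : U → R := fun a => mk (MonoidAlgebra.single a 1)
  have hD : ∀ a, D (f a) = g a := hD0
  have hf : ∀ a b, f a * f b = f (a * b) := by
    intro a b
    show mk _ * mk _ = mk _
    rw [← map_mul, MonoidAlgebra.single_mul_single, mul_one]
  have hrk' : ∀ a, rk (f a) = 1 := hrk
  have hind : ∀ P : R → Prop, P 0 → (∀ x y, P x → P y → P (x + y)) →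
      (∀ a (n : ℤ), P (n • f a)) → ∀ x, P x := by
    intro P h0 hadd hs x
    obtain ⟨p, rfl⟩ := hmk x
    induction p using MonoidAlgebra.induction_linear with
    | zero => rw [map_zero]; exact h0
    | add p q hp hq => rw [map_add]; exact hadd _ _ hp hq
    | single b n =>
      have h1 : (MonoidAlgebra.single b n : MonoidAlgebra ℤ U) =
          n • MonoidAlgebra.single b 1 := by
        rw [MonoidAlgebra.smul_single, smul_eq_mul, mul_one]
      rw [h1, map_zsmul]
      exact hs b n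
  let _ : Module (ZMod 2) M :=
    AddCommGroup.zmodModule (n := 2) (G := M) (fun x => by rw [two_nsmul]; exact htwo x)
  have hcast : ∀ (n : ℤ) (x : M), ((n : ℤ) : ZMod 2) • x = n • x :=
    fun n x => Int.cast_smul_eq_zsmul (ZMod 2) n x
  have h1 : ∀ (a : U) (x : R), D (f a * x) = D x + rk x • g a := by
    intro a
    apply hind
    · rw [mul_zero, map_zero, map_zero, zero_smul, add_zero]
    · intro x y hx hy
      rw [mul_add, map_add, hx, hy, map_add, map_add, add_smul]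
      abel
    · intro b n
      rw [mul_smul_comm, hf, map_zsmul, map_zsmul, map_zsmul, hD, hD, hrk',
        hg, smul_add, zsmul_eq_mul, mul_one, hcast, add_comm]
  have h2 : ∀ (x : R), rk x = 0 → ∀ y : R, D (y * x) = rk y • D x := by
    intro x hx
    apply hind
    · rw [zero_mul, map_zero, map_zero, zero_smul]
    · intro y z hy hz
      rw [add_mul, map_add, hy, hz, map_add, add_smul]
    · intro b n
      rw [smul_mul_assoc, map_zsmul, map_zsmul, h1, hx, zero_smul, add_zero, hrk',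
        zsmul_eq_mul, mul_one, hcast]
  intro x y hx hy
  have h3 := h2 y hy x
  rw [hx, zero_smul] at h3
  exact h3

theorem powsq {R : Type*} [CommRing R] (I : Ideal R) (P : R → Prop)
    (h1 : ∀ x ∈ I, ∀ y ∈ I, P (x * y)) (h2 : ∀ x y, P x → P y → P (x + y)) (z : R)
    (hz : z ∈ @HPow.hPow (Ideal R) ℕ (Ideal R)
      (@instHPow _ _ (@NPow.toPow _ (@NPow.ofPow _
        (Submodule.instPowNat (R := R) (A := R))))) I 2) : P z := by
  have hz' : z ∈ npowRec 2 I := hz
  rw [show npowRec 2 I = (npowRec 0 I * I) * I from rfl, show npowRec 0 I = 1 from rfl,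
    one_mul] at hz'
  exact Submodule.mul_induction_on hz' h1 h2

theorem cancel {M : Type*} [AddCommGroup M] (x a b : M) (h : x + a = (x + b)) : a = b := by
  exact add_left_cancel h

theorem obt (L : Type u) [Field L] : ∃ D : W L → Additive (Lˣ ⧸ Hs L),
    (∀ x y, D (x + y) = D x + D y) ∧ ∀ a, D (form a) = gm a := by
  obtain ⟨D, hD⟩ := t_LIFT.{u, u} L (Additive (Lˣ ⧸ Hs L)) gm gm_sq gm_hyp
    (fun a b c _ => gm_add a b c)
  exact ⟨fun x => D x, fun x y => map_add D x y, hD⟩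

theorem hq0 (L : Type u) [Field L] :
    ∀ a, rk L (Ideal.Quotient.mk (Ideal.span {x | Rel L x}) (MonoidAlgebra.single a 1)) = 1 :=
  fun a => rk0_e a

theorem hq00 (L : Type u) [Field L] (D : W L → Additive (Lˣ ⧸ Hs L))
    (hD : ∀ a, D (form a) = gm a) :
    ∀ a, D (Ideal.Quotient.mk (Ideal.span {x | Rel L x}) (MonoidAlgebra.single a 1)) = gm a := hD

theorem hqs (L : Type u) [Field L] :
    Function.Surjective (Ideal.Quotient.mk (Ideal.span {x | Rel L x})) :=
  Ideal.Quotient.mk_surjective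

theorem hprodG (L : Type u) [Field L] (D : W L → Additive (Lˣ ⧸ Hs L))
    (hDa : ∀ x y, D (x + y) = D x + D y)
    (h00 : ∀ a, D (Ideal.Quotient.mk (Ideal.span {x | Rel L x})
      (MonoidAlgebra.single a 1)) = gm a)
    (hs : Function.Surjective (Ideal.Quotient.mk (Ideal.span {x | Rel L x})))
    (h0 : ∀ a, rk L (Ideal.Quotient.mk (Ideal.span {x | Rel L x})
      (MonoidAlgebra.single a 1)) = 1)
    (x y : W L) (hx : rk L x = 0) (hy : rk L y = 0) :
    D (x * y) = gm 1 := by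
  have := @gen (W L) _ Lˣ _ (Additive (Lˣ ⧸ Hs L)) _
    (Ideal.Quotient.mk (Ideal.span {x | Rel L x})) hs gm_two (rk L) h0 gm gm_mul D hDa h00 x y hx hy
  exact this

theorem powsqD {R : Type*} [CommRing R] {M : Type*} [AddCommGroup M] (I : Ideal R)
    (rk : R → ZMod 2) (hI : ∀ x ∈ I, rk x = 0) (D : R → M) (w : M) (hw : w + w = w)
    (hDa : ∀ x y, D (x + y) = D x + D y)
    (h1 : ∀ x y, rk x = 0 → rk y = 0 → D (x * y) = w) (z : R)
    (hz : z ∈ @HPow.hPow (Ideal R) ℕ (Ideal R)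
      (@instHPow _ _ (@NPow.toPow _ (@NPow.ofPow _
        (Submodule.instPowNat (R := R) (A := R))))) I 2) : D z = w := by
  refine powsq I (fun z => D z = w) ?_ ?_ z hz
  · intro x hx y hy
    exact h1 x y (hI x hx) (hI y hy)
  · intro x y hx hy
    show D (x + y) = w
    have hx' : D x = w := hx
    have hy' : D y = w := hy
    rw [hDa, hx', hy', hw]

theorem memI (L : Type u) [Field L] : ∀ x ∈ I L, rk L x = 0 := fun _ hx => hx

theorem gmone (L : Type u) [Field L] : gm (1 : Lˣ) + gm 1 = gm 1 := by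
  rw [← gm_mul, mul_one]

theorem h3 (L : Type u) [Field L] (D : W L → Additive (Lˣ ⧸ Hs L))
    (hDa : ∀ x y, D (x + y) = D x + D y)
    (h1 : ∀ x y, rk L x = 0 → rk L y = 0 → D (x * y) = gm 1)
    (hI : ∀ x ∈ I L, rk L x = 0) (hg : gm (1 : Lˣ) + gm 1 = gm 1)
    (z : W L) (hz : z ∈ (I L) ^ 2) : D z = gm 1 := by
  have h2 := @powsqD (W L) _ (Additive (Lˣ ⧸ Hs L)) _ (I L) (rk L) hI D (gm 1) hg hDa h1 z
  exact h2 hz

theorem k1 (L : Type u) [Field L] (D : W L → Additive (Lˣ ⧸ Hs L))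
    (hDa : ∀ x y, D (x + y) = D x + D y)
    (hD : ∀ a, D (form a) = gm a) (z : W L) (hz : z ∈ (I L) ^ 2) : D z = gm 1 := by
  have h0 := hq0 L
  have h00 := hq00 L D hD
  have hs := hqs L
  have h1 := hprodG L D hDa h00 hs h0
  have h2 := h3 L D hDa h1 (memI L) (gmone L) z hz
  exact h2


theorem addsub {R M : Type*} [CommRing R] [AddCommGroup M] (D : R → M)
    (hDa : ∀ x y, D (x + y) = D x + D y) (x a b : R) (p q g : M) (hg : g + g = g)
    (hx : D x = g) (ha : D a = p) (hb : D b = q) (h : D ((x + a) - (x + b)) = g) : p = q := by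
  have e1 : D ((x + a) - (x + b) + (x + b)) = D ((x + a) - (x + b)) + D (x + b) := hDa _ _
  rw [sub_add_cancel, h, hDa, hDa, hx, ha, hb, ← add_assoc, hg] at e1
  exact add_left_cancel e1

theorem k2 (L : Type u) [Field L] (D : W L → Additive (Lˣ ⧸ Hs L))
    (hDa : ∀ x y, D (x + y) = D x + D y)
    (h1 : D (form 1) = gm 1) (a b : Lˣ) (ha : D (form (-a)) = gm (-a))
    (hb : D (form (-b)) = gm (-b)) (hg : gm (1 : Lˣ) + gm 1 = gm 1)
    (h : D (pf a - pf b) = gm 1) : gm (-a) = gm (-b) := by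
  have h2 := @addsub (W L) (Additive (Lˣ ⧸ Hs L)) _ _ D hDa (form 1) (form (-a)) (form (-b))
    (gm (-a)) (gm (-b)) (gm 1) hg h1 ha hb
  exact h2 h

theorem k3 (L : Type u) [Field L] (a b : Lˣ) (h : gm (-a) = gm (-b)) :
    ∃ c : Lˣ, a = b * c ^ 2 ∨ a = -(b * c ^ 2) := by
  rw [gm_neg, gm_neg] at h
  have h5 : (QuotientGroup.mk a : Lˣ ⧸ Hs L) = QuotientGroup.mk b := Additive.ofMul.injective h
  rw [QuotientGroup.eq] at h5
  obtain ⟨c, hc⟩ := h5
  refine ⟨c⁻¹, ?_⟩
  rcases hc with hc | hc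
  · left
    have hb : b = a * c ^ 2 := by rw [← hc, ← mul_assoc, mul_inv_cancel, one_mul]
    rw [hb, inv_pow, mul_assoc, mul_inv_cancel, mul_one]
  · right
    have hb : b = a * -(c ^ 2) := by rw [← hc, ← mul_assoc, mul_inv_cancel, one_mul]
    rw [hb, inv_pow, mul_neg, neg_mul, neg_neg, mul_assoc, mul_inv_cancel, mul_one]


theorem t_DISC : W548.MQ.S_DISC.{u} := by
  intro L _ a b hab
  obtain ⟨D, hDa, hD⟩ := obt L
  have h4 := k1 L D hDa hD (pf a - pf b) hab
  have h5 := k2 L D hDa (hD 1) a b (hD _) (hD _) (gmone L) h4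
  exact k3 L a b h5

end W293.MQ
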