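import Pool.Agent.W548.MQ.Stm

set_option autoImplicit false

open WithZero IsDedekindDomain

namespace W293.MQ

universe u w

open W548.MQ

theorem t_LIFT : W548.MQ.S_LIFT.{u, w} := by
  intro L _ M _ g hsq hhyp hadd
  let r0 : MonoidAlgebra ℤ Lˣ →+ M :=
    (Finsupp.liftAddHom fun a => (smulAddHom ℤ M).flip (g a)).comp
      MonoidAlgebra.coeffAddEquiv.toAddMonoidHom
  have hr0 : ∀ (a : Lˣ) (n : ℤ), r0 (MonoidAlgebra.single a n) = n • g a := by
    intro a n
    have h1 : r0 (MonoidAlgebra.single a n) =
        (Finsupp.liftAddHom fun a => (smulAddHom ℤ M).flip (g a)) (Finsupp.single a n) := rfl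
    rw [h1, Finsupp.liftAddHom_apply_single]
    rfl
  have hgen : ∀ x : MonoidAlgebra ℤ Lˣ, Rel L x → ∀ c, r0 (c * x) = 0 := by
    intro x hx c
    induction c using MonoidAlgebra.induction_linear with
    | zero => rw [zero_mul, map_zero]
    | add p q hp hq => rw [add_mul, map_add, hp, hq, add_zero]
    | single d n =>
      cases hx with
      | sq a b =>
        rw [mul_sub, map_sub, e, e, MonoidAlgebra.single_mul_single,
          MonoidAlgebra.single_mul_single, hr0, hr0, ← mul_assoc, hsq, sub_self]
      | hyp a =>
        rw [mul_add, map_add, e, e, MonoidAlgebra.single_mul_single,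
          MonoidAlgebra.single_mul_single, hr0, hr0, mul_one, mul_neg, ← smul_add, hhyp,
          smul_zero]
      | add a b c h =>
        rw [mul_sub, mul_sub, mul_add, map_sub, map_sub, map_add, e, e, e, e,
          MonoidAlgebra.single_mul_single, MonoidAlgebra.single_mul_single,
          MonoidAlgebra.single_mul_single, MonoidAlgebra.single_mul_single,
          hr0, hr0, hr0, hr0, mul_one, ← smul_add, ← smul_sub, ← smul_sub]
        have h2 := hadd (d * a) (d * b) (d * c) (by
          rw [Units.val_mul, Units.val_mul, Units.val_mul, ← h]; ring)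
        have h3 : d * a * (d * b) * (d * c) = d * (a * b * c) * d ^ 2 := by
          apply Units.ext
          push_cast
          ring
        rw [h3, hsq] at h2
        rw [h2]
        simp
  have hspan : ∀ y ∈ Ideal.span {x | Rel L x}, ∀ c, r0 (c * y) = 0 := by
    intro y hy
    induction hy using Submodule.span_induction with
    | mem x hx => exact hgen x hx
    | zero => intro c; rw [mul_zero, map_zero]
    | add x y _ _ hx hy => intro c; rw [mul_add, map_add, hx, hy, add_zero]
    | smul a x _ hx => intro c; rw [smul_eq_mul, ← mul_assoc]; exact hx _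
  have hk : ∀ p q : MonoidAlgebra ℤ Lˣ,
      Ideal.Quotient.mk (Ideal.span {x | Rel L x}) p =
        Ideal.Quotient.mk (Ideal.span {x | Rel L x}) q → r0 p = r0 q := by
    intro p q h
    rw [Ideal.Quotient.eq] at h
    have := hspan _ h 1
    rw [one_mul, map_sub] at this
    exact sub_eq_zero.mp this
  have hsurj : Function.Surjective (Ideal.Quotient.mk (Ideal.span {x | Rel L x})) :=
    Ideal.Quotient.mk_surjective
  refine ⟨{ toFun := fun y => r0 (Function.surjInv hsurj y), map_zero' := ?_, map_add' := ?_ },
    ?_⟩
  · rw [← map_zero r0]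
    apply hk
    rw [Function.surjInv_eq hsurj, map_zero]
  · intro x y
    rw [← map_add]
    apply hk
    rw [map_add, Function.surjInv_eq hsurj, Function.surjInv_eq hsurj,
      Function.surjInv_eq hsurj]
  · intro a
    show r0 (Function.surjInv hsurj (form a)) = g a
    have h1 : r0 (Function.surjInv hsurj (form a)) = r0 (e a) := by
      apply hk
      rw [Function.surjInv_eq hsurj]
      rfl
    rw [h1, e, hr0, one_smul]

end W293.MQ
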